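import Mathlib

/-!
# AB percolation on the triangular lattice: an outer bound

If one of the two labels has probability less than `2 / 17`, then the AB cluster of a fixed site is
almost surely finite; so the percolating set lies in `[2 / 17, 15 / 17]`.

Proof: consecutive sites with the rare label on an AB path differ by one of `18` vectors. In the
graph of the rare sites with these `18` displacements an infinite component contains geodesics of
every length; on a geodesic the site after the next is not reachable in one step. With the weights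
`58`, `100`, `94` for the three types of steps, the weights of the continuations of a step sum up to
at most `17 / 2` times its weight, so the expected number of geodesics of length `n + 1` is at most
`1512 (17 q / 2) ^ n`.
-/

set_option autoImplicit false

open MeasureTheory Filter Topology Set
open scoped ENNReal

namespace Pool.Agent.Results.MP_c38eaf_pr.OuterBound

/-- Sites of the triangular lattice in axial coordinates. -/
abbrev Site := ℤ × ℤ

/-- The six displacements between nearest neighbours of the triangular lattice. -/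
def D1 : Finset Site := {(1, 0), (0, 1), (-1, 1), (-1, 0), (0, -1), (1, -1)}

/-- A bond of the AB graph: nearest neighbours with different labels. -/
def ABStep (ω : Site → Bool) (x y : Site) : Prop := y - x ∈ D1 ∧ ω x ≠ ω y

/-- The AB cluster of `x`. -/
def cluster (ω : Site → Bool) (x : Site) : Set Site :=
  {y | Relation.ReflTransGen (ABStep ω) x y}

/-- sums of two displacements -/
def D0 : Finset Site := (D1 ×ˢ D1).image (fun p => p.1 + p.2)

/-- nonzero sums of two displacements -/
def D : Finset Site := D0.erase 0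

/-- weights of the three types of steps -/
def wt (s : Site) : ℕ :=
  if s ∈ D1 then 58 else if s ∈ D1.image (fun t => t + t) then 100 else 94

theorem cont_le : ∀ s ∈ D, 2 * ∑ t ∈ D.filter (fun t => s + t ∉ D0), wt t ≤ 17 * wt s := by decide

theorem sum_D : ∑ t ∈ D, wt t = 1512 := by decide

theorem wt_pos (s : Site) : 1 ≤ wt s := by
  unfold wt; split_ifs <;> norm_num

/-- steps between sites with label `b` -/
def TStep (b : Bool) (ω : Site → Bool) (x y : Site) : Prop := y - x ∈ D ∧ ω y = b

/-- reachable in `n` steps -/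
def RN (b : Bool) (ω : Site → Bool) (x : Site) : ℕ → Site → Prop
  | 0, y => x = y
  | n + 1, y => ∃ z, RN b ω x n z ∧ TStep b ω z y

/-- the level of `y` is `n` -/
def Lvl (b : Bool) (ω : Site → Bool) (x : Site) (n : ℕ) (y : Site) : Prop :=
  RN b ω x n y ∧ ∀ k < n, ¬ RN b ω x k y

theorem lvl_pred {b : Bool} {ω : Site → Bool} {x : Site} {n : ℕ} {y : Site}
    (h : Lvl b ω x (n + 1) y) : ∃ z, Lvl b ω x n z ∧ TStep b ω z y := by
  obtain ⟨⟨z, hz, hs⟩, hm⟩ := h
  exact ⟨z, ⟨hz, fun k hk hk' => hm (k + 1) (by omega) ⟨z, hk', hs⟩⟩, hs⟩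

theorem rn_label {b : Bool} {ω : Site → Bool} {x : Site} (hx : ω x = b) {n : ℕ} {y : Site}
    (h : RN b ω x n y) : ω y = b := by
  cases n with
  | zero => cases h; exact hx
  | succ n => obtain ⟨z, _, hs⟩ := h; exact hs.2

theorem lvl_far {b : Bool} {ω : Site → Bool} {x : Site} (hx : ω x = b) {n : ℕ} {y w : Site}
    (hy : Lvl b ω x n y) (hw : Lvl b ω x (n + 2) w) : w - y ∉ D0 := by
  intro h
  by_cases h0 : w - y = 0
  · have : w = y := sub_eq_zero.1 h0
    subst this
    exact hw.2 n (by omega) hy.1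
  · exact hw.2 (n + 1) (by omega) ⟨y, hy.1, Finset.mem_erase.2 ⟨h0, h⟩, rn_label hx hw.1⟩

/-- continuations of a list -/
def ext : List Site → Finset Site
  | [] => ∅
  | [a] => D.image (fun t => a + t)
  | b :: c :: _ => if b - c ∈ D then
      (D.filter (fun t => (b - c) + t ∉ D0)).image (fun t => b + t) else ∅

/-- the candidate lists of length `n + 1` -/
def S (x : Site) : ℕ → Finset (List Site)
  | 0 => {[x]}
  | n + 1 => (S x n).biUnion (fun l => (ext l).image (fun a => a :: l))

theorem len_S (x : Site) (n : ℕ) : ∀ l ∈ S x n, l.length = n + 1 := by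
  induction n with
  | zero => intro l hl; simp [S] at hl; simp [hl]
  | succ n ih =>
    intro l hl
    simp only [S, Finset.mem_biUnion, Finset.mem_image] at hl
    obtain ⟨l', hl', a, _, rfl⟩ := hl
    simp [ih l' hl']

/-- weight of a list -/
def wl : List Site → ℕ
  | b :: c :: _ => wt (b - c)
  | _ => 0

theorem ext_le (l : List Site) (h : 2 ≤ l.length) :
    2 * ∑ a ∈ ext l, wl (a :: l) ≤ 17 * wl l := by
  match l, h with
  | b :: c :: l', _ =>
    simp only [ext, wl]
    split_ifs with hbc
    · rw [Finset.sum_image (fun t _ u _ h => add_left_cancel h)]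
      simp only [add_sub_cancel_left]
      exact cont_le _ hbc
    · simp

theorem sum_S (x : Site) (n : ℕ) :
    ∑ l ∈ S x (n + 1), wl l = ∑ l ∈ S x n, ∑ a ∈ ext l, wl (a :: l) := by
  rw [S, Finset.sum_biUnion]
  · refine Finset.sum_congr rfl fun l _ => ?_
    rw [Finset.sum_image (fun a _ a' _ h => (List.cons.inj h).1)]
  · intro l _ l' _ hne
    rw [Function.onFun, Finset.disjoint_left]
    intro z hz hz'
    obtain ⟨a, _, rfl⟩ := Finset.mem_image.1 hz
    obtain ⟨a', _, h'⟩ := Finset.mem_image.1 hz'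
    exact hne (List.cons.inj h').2.symm

theorem W_le (x : Site) (n : ℕ) : 2 ^ n * ∑ l ∈ S x (n + 1), wl l ≤ 1512 * 17 ^ n := by
  induction n with
  | zero =>
    rw [sum_S]
    simp only [S, Finset.sum_singleton, ext, wl, pow_zero, mul_one, one_mul]
    rw [Finset.sum_image (fun t _ u _ h => add_left_cancel h)]
    simp only [add_sub_cancel_left]
    exact le_of_eq sum_D
  | succ n ih =>
    rw [sum_S]
    have h1 : 2 * ∑ l ∈ S x (n + 1), ∑ a ∈ ext l, wl (a :: l) ≤
        17 * ∑ l ∈ S x (n + 1), wl l := by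
      rw [Finset.mul_sum, Finset.mul_sum]
      refine Finset.sum_le_sum fun l hl => ext_le l ?_
      rw [len_S x (n + 1) l hl]; omega
    calc 2 ^ (n + 1) * ∑ l ∈ S x (n + 1), ∑ a ∈ ext l, wl (a :: l)
        = 2 ^ n * (2 * ∑ l ∈ S x (n + 1), ∑ a ∈ ext l, wl (a :: l)) := by ring
      _ ≤ 2 ^ n * (17 * ∑ l ∈ S x (n + 1), wl l) := by gcongr
      _ = 17 * (2 ^ n * ∑ l ∈ S x (n + 1), wl l) := by ring
      _ ≤ 17 * (1512 * 17 ^ n) := by gcongr
      _ = 1512 * 17 ^ (n + 1) := by ring

theorem card_S (x : Site) (n : ℕ) : 2 ^ n * (S x (n + 1)).card ≤ 1512 * 17 ^ n := by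
  refine le_trans (Nat.mul_le_mul_left _ ?_) (W_le x n)
  rw [Finset.card_eq_sum_ones]
  refine Finset.sum_le_sum fun l hl => ?_
  have hlen := len_S x (n + 1) l hl
  match l, hlen with
  | b :: c :: l', _ => exact wt_pos _

theorem card_S' (x : Site) (n : ℕ) :
    ((S x (n + 1)).card : ℝ≥0∞) ≤ 1512 * (17 / 2) ^ n := by
  have h := card_S x n
  have h2 : (2 : ℝ≥0∞) ^ n * ((S x (n + 1)).card : ℝ≥0∞) ≤ 1512 * 17 ^ n := by exact_mod_cast h
  have h3 : (2 : ℝ≥0∞) ^ n ≠ 0 := pow_ne_zero _ (by norm_num)
  have h4 : (2 : ℝ≥0∞) ^ n ≠ ∞ := ENNReal.pow_ne_top (by norm_num)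
  have h5 : (2 : ℝ≥0∞) ^ n * (1512 * (17 / 2) ^ n) = 1512 * 17 ^ n := by
    have h6 : (2 : ℝ≥0∞) * (17 / 2) = 17 := ENNReal.mul_div_cancel (by norm_num) (by norm_num)
    calc (2 : ℝ≥0∞) ^ n * (1512 * (17 / 2) ^ n) = 1512 * (2 * (17 / 2)) ^ n := by
          rw [mul_pow]; ring
      _ = _ := by rw [h6]
  rw [← h5] at h2
  exact (ENNReal.mul_le_mul_iff_right h3 h4).1 h2

theorem chain {b : Bool} {ω : Site → Bool} {x : Site} (hx : ω x = b) (n : ℕ) :
    ∀ y, Lvl b ω x (n + 1) y → ∃ z l, Lvl b ω x n z ∧ (y :: z :: l) ∈ S x (n + 1) ∧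
      (y :: z :: l).Nodup ∧ ∀ a ∈ (y :: z :: l), ∃ k ≤ n + 1, Lvl b ω x k a := by
  induction n with
  | zero =>
    intro y hy
    obtain ⟨z, hz, hs⟩ := lvl_pred hy
    have hxz : x = z := hz.1
    subst hxz
    refine ⟨x, [], hz, ?_, ?_, ?_⟩
    · simp only [S, Finset.singleton_biUnion, Finset.mem_image, ext]
      exact ⟨y, ⟨y - x, hs.1, by abel⟩, rfl⟩
    · simp only [List.nodup_cons, List.mem_singleton, List.not_mem_nil, not_false_iff,
        List.nodup_nil, and_true]
      rintro rfl
      exact hy.2 0 (by omega) hz.1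
    · intro a ha
      simp only [List.mem_cons, List.not_mem_nil, or_false] at ha
      rcases ha with rfl | rfl
      · exact ⟨1, le_rfl, hy⟩
      · exact ⟨0, by omega, hz⟩
  | succ n ih =>
    intro y hy
    obtain ⟨z, hz, hs⟩ := lvl_pred hy
    obtain ⟨w, l, hw, hl, hnd, hlv⟩ := ih z hz
    refine ⟨z, w :: l, hz, ?_, ?_, ?_⟩
    · rw [S, Finset.mem_biUnion]
      refine ⟨z :: w :: l, hl, Finset.mem_image.2 ⟨y, ?_, rfl⟩⟩
      have hzw : z - w ∈ D := by
        have hfar := hz.2
        by_contra hcon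
        -- the list `z :: w :: l` is in `S`, so `z` is a continuation
        have h0 : z ∈ ext (w :: l) := by
          rw [S, Finset.mem_biUnion] at hl
          obtain ⟨l', _, h'⟩ := hl
          obtain ⟨a, ha, hal⟩ := Finset.mem_image.1 h'
          simp only [List.cons.injEq] at hal
          obtain ⟨rfl, rfl⟩ := hal
          exact ha
        apply hcon
        match l, h0 with
        | [], h0 =>
          simp only [ext, Finset.mem_image] at h0
          obtain ⟨t, ht, rfl⟩ := h0
          simpa using ht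
        | c :: l', h0 =>
          simp only [ext] at h0
          split_ifs at h0 with h1
          · obtain ⟨t, ht, rfl⟩ := Finset.mem_image.1 h0
            have := (Finset.mem_filter.1 ht).1
            simpa using this
          · simp at h0
      simp only [ext, hzw, if_true]
      refine Finset.mem_image.2 ⟨y - z, Finset.mem_filter.2 ⟨hs.1, ?_⟩, by abel⟩
      have := lvl_far hx hw hy
      have he : z - w + (y - z) = y - w := by abel
      rw [he]; exact this
    · rw [List.nodup_cons]
      refine ⟨fun hmem => ?_, hnd⟩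
      obtain ⟨k, hk, hlk⟩ := hlv y hmem
      exact hy.2 k (by omega) hlk.1
    · intro a ha
      rw [List.mem_cons] at ha
      rcases ha with rfl | ha
      · exact ⟨n + 2, le_rfl, hy⟩
      · obtain ⟨k, hk, hlk⟩ := hlv a ha
        exact ⟨k, by omega, hlk⟩

/-- the law of the labels -/
noncomputable def P (ν : Measure Bool) : Measure (Site → Bool) := Measure.infinitePi (fun _ => ν)

theorem prob_list (ν : Measure Bool) [IsProbabilityMeasure ν] (b : Bool) (l : List Site)
    (h : l.Nodup) : P ν {ω | ∀ a ∈ l, ω a = b} = (ν {b}) ^ l.length := by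
  classical
  have : {ω : Site → Bool | ∀ a ∈ l, ω a = b} = Set.pi (l.toFinset : Set Site) (fun _ => {b}) := by
    ext ω; simp [Set.mem_pi]
  rw [this, P, Measure.infinitePi_pi _ (fun _ _ => MeasurableSet.singleton b)]
  rw [Finset.prod_const, List.toFinset_card_of_nodup h]

theorem fin_RN (b : Bool) (ω : Site → Bool) (x : Site) (n : ℕ) : {y | RN b ω x n y}.Finite := by
  induction n with
  | zero =>
    have : {y | RN b ω x 0 y} = {x} := by ext y; simp [RN, eq_comm]
    rw [this]; exact Set.finite_singleton x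
  | succ n ih =>
    refine (ih.biUnion (fun z _ => (D.image (fun t => z + t)).finite_toSet)).subset ?_
    rintro y ⟨z, hz, hs⟩
    rw [Set.mem_iUnion₂]
    exact ⟨z, hz, by
      rw [Finset.mem_coe, Finset.mem_image]
      exact ⟨y - z, hs.1, by abel⟩⟩

theorem exists_lvl (b : Bool) (ω : Site → Bool) (x : Site)
    (h : {y | ∃ n, RN b ω x n y}.Infinite) (n : ℕ) : ∃ y, Lvl b ω x n y := by
  classical
  by_contra hcon
  rw [not_exists] at hcon
  apply h
  refine ((Set.finite_Iio n).biUnion (fun k _ => fin_RN b ω x k)).subset ?_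
  rintro y ⟨m, hm⟩
  have hex : ∃ m, RN b ω x m y := ⟨m, hm⟩
  have hlv : Lvl b ω x (Nat.find hex) y :=
    ⟨Nat.find_spec hex, fun k hk => Nat.find_min hex hk⟩
  rw [Set.mem_iUnion₂]
  refine ⟨Nat.find hex, ?_, hlv.1⟩
  by_contra hge
  rw [Set.mem_Iio, not_lt] at hge
  -- descend to level n
  have desc : ∀ j, ∀ y, Lvl b ω x (n + j) y → ∃ z, Lvl b ω x n z := by
    intro j
    induction j with
    | zero => intro y hy; exact ⟨y, hy⟩
    | succ j ih =>
      intro y hy
      obtain ⟨z, hz, _⟩ := lvl_pred (n := n + j) hy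
      exact ih z hz
  obtain ⟨z, hz⟩ := desc (Nat.find hex - n) y (by
    have : n + (Nat.find hex - n) = Nat.find hex := by omega
    rw [this]; exact hlv)
  exact hcon z hz

theorem prob_inf (ν : Measure Bool) [IsProbabilityMeasure ν] (b : Bool) (hb : ν {b} < 2 / 17)
    (x : Site) : P ν {ω | ω x = b ∧ {y | ∃ n, RN b ω x n y}.Infinite} = 0 := by
  classical
  have hle : ∀ n : ℕ, P ν {ω | ω x = b ∧ {y | ∃ n, RN b ω x n y}.Infinite} ≤
      1512 * (17 / 2 * ν {b}) ^ n := by
    intro n
    calc P ν {ω | ω x = b ∧ {y | ∃ n, RN b ω x n y}.Infinite}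
        ≤ P ν (⋃ l ∈ (S x (n + 1)).filter List.Nodup, {ω | ∀ a ∈ l, ω a = b}) := by
          apply measure_mono
          rintro ω ⟨hx, hinf⟩
          obtain ⟨y, hy⟩ := exists_lvl b ω x hinf (n + 1)
          obtain ⟨z, l, _, hl, hnd, hlv⟩ := chain hx n y hy
          rw [Set.mem_iUnion₂]
          refine ⟨y :: z :: l, Finset.mem_filter.2 ⟨hl, hnd⟩, fun a ha => ?_⟩
          obtain ⟨k, _, hk⟩ := hlv a ha
          exact rn_label hx hk.1
      _ ≤ ∑ l ∈ (S x (n + 1)).filter List.Nodup, P ν {ω | ∀ a ∈ l, ω a = b} :=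
          measure_biUnion_finset_le _ _
      _ = ∑ l ∈ (S x (n + 1)).filter List.Nodup, (ν {b}) ^ (n + 2) := by
          refine Finset.sum_congr rfl fun l hl => ?_
          rw [prob_list ν b l (Finset.mem_filter.1 hl).2,
            len_S x (n + 1) l (Finset.mem_filter.1 hl).1]
      _ ≤ ((S x (n + 1)).card : ℝ≥0∞) * (ν {b}) ^ (n + 2) := by
          rw [Finset.sum_const, nsmul_eq_mul]
          gcongr
          exact Finset.filter_subset _ _
      _ ≤ (1512 * (17 / 2) ^ n) * (ν {b}) ^ (n + 2) := by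
          gcongr
          exact card_S' x n
      _ ≤ 1512 * (17 / 2 * ν {b}) ^ n := by
          rw [pow_add, mul_pow]
          have h2 : (ν {b}) ^ 2 ≤ 1 := pow_le_one₀ bot_le prob_le_one
          calc (1512 * (17 / 2) ^ n : ℝ≥0∞) * ((ν {b}) ^ n * (ν {b}) ^ 2)
              ≤ (1512 * (17 / 2) ^ n : ℝ≥0∞) * ((ν {b}) ^ n * 1) := by gcongr
            _ = _ := by ring
  have hlt : 17 / 2 * ν {b} < 1 := by
    have h10 : (17 / 2 : ℝ≥0∞) ≠ 0 := (ENNReal.div_pos (by norm_num) (by norm_num)).ne'
    have h10' : (17 / 2 : ℝ≥0∞) ≠ ∞ := ENNReal.div_ne_top (by norm_num) (by norm_num)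
    calc 17 / 2 * ν {b} < 17 / 2 * (2 / 17) := (ENNReal.mul_lt_mul_iff_right h10 h10').2 hb
      _ = 1 := by
          rw [← ENNReal.inv_div (Or.inl (by norm_num)) (Or.inl (by norm_num))]
          exact ENNReal.inv_mul_cancel (ENNReal.div_pos (by norm_num) (by norm_num)).ne'
            (ENNReal.div_ne_top (by norm_num) (by norm_num))
  have hlim : Tendsto (fun n : ℕ => 1512 * (17 / 2 * ν {b}) ^ n) atTop (𝓝 0) := by
    have := ENNReal.Tendsto.const_mul (ENNReal.tendsto_pow_atTop_nhds_zero_of_lt_one hlt)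
      (Or.inr (by norm_num : (1512 : ℝ≥0∞) ≠ ∞))
    simpa using this
  exact le_antisymm (ge_of_tendsto' hlim hle) bot_le

theorem ab_to_T {b : Bool} {ω : Site → Bool} {x y : Site} (hx : ω x = b)
    (h : Relation.ReflTransGen (ABStep ω) x y) :
    (ω y = b ∧ ∃ n, RN b ω x n y) ∨ (ω y ≠ b ∧ ∃ z, (∃ n, RN b ω x n z) ∧ y - z ∈ D1) := by
  induction h with
  | refl => exact Or.inl ⟨hx, 0, rfl⟩
  | @tail y w _ h2 ih =>
    obtain ⟨hd, hne⟩ := h2
    rcases ih with ⟨hy, hn⟩ | ⟨hy, z, ⟨n, hn⟩, hz⟩
    · right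
      exact ⟨fun h => hne (hy.trans h.symm), y, hn, hd⟩
    · left
      have hw : ω w = b := by
        revert hne hy
        cases ω y <;> cases ω w <;> cases b <;> simp
      refine ⟨hw, ?_⟩
      by_cases h0 : w - z = 0
      · have : w = z := sub_eq_zero.1 h0
        subst this
        exact ⟨n, hn⟩
      · refine ⟨n + 1, z, hn, Finset.mem_erase.2 ⟨h0, ?_⟩, hw⟩
        rw [D0, Finset.mem_image]
        exact ⟨(w - y, y - z), Finset.mem_product.2 ⟨hd, hz⟩, by simp⟩

theorem inf_of_cluster {b : Bool} {ω : Site → Bool} {x : Site} (hx : ω x = b)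
    (h : (cluster ω x).Infinite) : {y | ∃ n, RN b ω x n y}.Infinite := by
  intro hfin
  apply h
  refine (hfin.union (hfin.biUnion (fun z _ => (D1.image (fun t => z + t)).finite_toSet))).subset ?_
  intro y hy
  rcases ab_to_T hx hy with ⟨_, h1⟩ | ⟨_, z, h1, h2⟩
  · exact Or.inl h1
  · right
    rw [Set.mem_iUnion₂]
    exact ⟨z, h1, by
      rw [Finset.mem_coe, Finset.mem_image]
      exact ⟨y - z, h2, by abel⟩⟩

/-- If one of the labels has probability less than `2 / 17`, then almost surely the AB cluster of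
the origin is finite. -/
theorem result (ν : Measure Bool) [IsProbabilityMeasure ν] (b : Bool) (hb : ν {b} < 2 / 17) :
    Measure.infinitePi (fun _ : Site => ν) {ω | (cluster ω 0).Infinite} = 0 := by
  have key : {ω : Site → Bool | (cluster ω 0).Infinite} ⊆
      ⋃ x ∈ insert 0 D1, {ω | ω x = b ∧ {y | ∃ n, RN b ω x n y}.Infinite} := by
    intro ω hω
    rw [Set.mem_iUnion₂]
    by_cases h0 : ω 0 = b
    · exact ⟨0, Finset.mem_insert_self _ _, h0, inf_of_cluster h0 hω⟩
    · by_contra hcon
      push Not at hcon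
      apply hω
      have hsub : cluster ω 0 ⊆ {0} ∪ ⋃ x ∈ (D1.filter (fun x => ω x = b) : Finset Site),
          cluster ω x := by
        intro y hy
        rcases Relation.ReflTransGen.cases_head hy with h | ⟨c, hc, hcy⟩
        · left; exact h.symm
        · right
          rw [Set.mem_iUnion₂]
          refine ⟨c, Finset.mem_filter.2 ⟨by simpa using hc.1, ?_⟩, hcy⟩
          have hne := hc.2
          revert hne h0
          cases ω 0 <;> cases ω c <;> cases b <;> simp
      refine Set.Finite.subset ?_ hsub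
      refine (Set.finite_singleton _).union (Set.Finite.biUnion (Finset.finite_toSet _) ?_)
      intro x hx
      have hx' := Finset.mem_filter.1 (Finset.mem_coe.1 hx)
      by_contra hinf
      exact hcon x (Finset.mem_insert_of_mem hx'.1) ⟨hx'.2, inf_of_cluster hx'.2 hinf⟩
  refine measure_mono_null key ?_
  exact le_antisymm ((measure_biUnion_finset_le _ _).trans
    (le_of_eq (Finset.sum_eq_zero fun x _ => prob_inf ν b hb x))) bot_le

end Pool.Agent.Results.MP_c38eaf_pr.OuterBound
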